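import Pool.Agent.K6.H73.Z7.G3L

set_option autoImplicit false

/-! # G3C: numerical certificate (break points in units of `1/80`) -/

namespace Pool.Agent.H343Z

namespace G3C

open G3L

/-- break points -/
def br : List ℕ :=
  [25, 53, 87, 122, 164, 217, 298, 402, 503, 584, 655, 729, 843, 1014, 1117, 1186, 1242, 1308,
   1394, 1555, 1644, 1709, 1763, 1815, 1892, 2058, 2140, 2200, 2257, 2316, 2396, 2509, 2640, 2699,
   2759, 2813, 2872, 2978, 3220, 3298, 3372, 3436, 3496, 3575, 3722, 4013, 4098, 4181, 4256, 4328,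
   4439, 4699, 4809, 4895, 4996, 5103, 5200, 5316, 5545, 5666, 5747, 5848, 5953, 6048, 6150, 6284,
   6593, 7108, 7274, 7426, 7555, 7680, 7864, 8291, 8850, 9042, 9224, 9376, 9528, 9764, 10221,
   10861, 11105, 11347, 11571, 11801, 12146, 12976, 15263, 21912, 43522, 60000]

theorem c1 : chkL PL1 stC lt2 (0 :: br) = true := by
  decide +kernel

theorem c2 : chkT PL1 stC lt2 ((0 :: br).getLast (by simp)) 4 = true := by
  decide +kernel

end G3C

theorem G3_C (s : ℕ) (hs : s ≤ 6) (ρ : ℝ) (hρ : 0 ≤ ρ) :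
    2 ^ 39000 * (Real.exp (-(314 / 25) * ρ) * GZ2 ρ * ∏ s' ∈ Finset.range s, Q2 s' ρ) ≤ 2 ^ t2 s * GP1 ρ :=
  G3L.mainC G3C.br (by simp [G3C.br]) G3C.c1 G3C.c2 s hs ρ hρ

end Pool.Agent.H343Z
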