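import Pool.Agent.K6.H73.Z7.G4eMain
import Pool.Agent.K6.H73.Z7.V2
import Pool.Agent.K6.H73.Z7.G10
import Pool.Agent.K6.H73.Z7.G11
import Pool.Agent.K6.H73.Z7.G12
import Pool.Agent.K6.H73.Z7.G2
import Pool.Agent.K6.H73.Z7.G3A
import Pool.Agent.K6.H73.Z7.G3B
import Pool.Agent.K6.H73.Z7.G3C
import Pool.Agent.K6.H73.Z7.G4m

/-!
# G4e. Bounds of the entries
-/

open Polynomial Pool.Agent.H337R2

namespace Pool.Agent.H343Z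

noncomputable section

theorem G4_entry : ∃ (C : ℝ) (K : ℕ), 0 < C ∧ ∀ N : ℕ, 1 ≤ N → ∀ n : ℕ, n = 24 * N + 1 → ∀ u : ℕ → ℚ,
    (∀ i ∈ ({3, 5, 7, 9} : Finset ℕ), zr (i + 4) = (u i : ℝ)) →
    ∀ i < 600 * N, ∀ j < 600 * N, |((NL n u (PN N i * PN N j) : ℚ) : ℝ)| ≤ C * (n : ℝ) ^ K *
      Real.exp ((2 * (Lam * N) + 8 * (i + j) * Real.log N + ((EX N i : ℝ) + EX N j - 78000 * N) * Real.log 2) / 4) :=
  G4eAux.G4_entry_of V2_NL_le G1_0 G1_1 G1_2 (fun hN c a b ha hb ρ hρ => G2_qa hN c a b ha hb ρ hρ)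
    (G4eAux.pow_eq_exp 39000) G3_A G3_B G3_C (fun hN i hi => G4_monic hN i hi)

end

end Pool.Agent.H343Z
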