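import Pool.Agent.H343Z.Defs
import Pool.Agent.H336R2.HD.F6

/-! Task F6: lower bound for the superfactorial. -/

open Filter Topology

namespace Pool.Agent.H343Z

noncomputable section

open Pool.Agent.H336R2.HD (F6_F F6_sum F6_mvt)

theorem F6_superfac : ∀ ε : ℝ, 0 < ε → ∀ᶠ n : ℕ in atTop,
    1250 * (n : ℝ) ^ 2 * Real.log n + (1250 * Real.log 50 - 1875 - ε) * (n : ℝ) ^ 2 ≤
      2 * ∑ i ∈ Finset.range (25 * (n - 1)), Real.log ((2 * i - 1).factorial : ℝ) := by
  intro ε hε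
  -- `log (50 n) / n → 0`
  have hlog : Tendsto (fun x : ℝ => Real.log x / x) atTop (𝓝 0) := by
    have := Real.isLittleO_log_id_atTop.tendsto_div_nhds_zero
    simpa using this
  have h12 : Tendsto (fun n : ℕ => (50 * (n : ℝ))) atTop atTop :=
    tendsto_natCast_atTop_atTop.const_mul_atTop (by norm_num)
  have hl2 := (hlog.comp h12).eventually (gt_mem_nhds (show (0 : ℝ) < ε / 265000 by positivity))
  have hl3 : ∀ᶠ n : ℕ in atTop, 5 / (2 * ε) < (n : ℝ) :=
    tendsto_natCast_atTop_atTop.eventually (eventually_gt_atTop _)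
  filter_upwards [hl2, hl3, eventually_ge_atTop 3] with n h1 h2 hn
  have hn' : (3 : ℝ) ≤ n := by exact_mod_cast hn
  have hn0 : (0 : ℝ) < n := by linarith
  obtain ⟨M, hM⟩ : ∃ M, 25 * (n - 1) = M + 2 := ⟨25 * n - 27, by omega⟩
  have hMr : (M : ℝ) = 25 * n - 27 := by
    have h3 : M + 27 = 25 * n := by omega
    have h4 : ((M + 27 : ℕ) : ℝ) = ((25 * n : ℕ) : ℝ) := by rw [h3]
    push_cast at h4
    linarith
  have h3 := F6_sum M
  rw [← hM] at h3
  have h4 : (2 * (M : ℝ) + 1) = 50 * n - 53 := by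
    rw [hMr]
    ring
  rw [h4] at h3
  have h5 := F6_mvt (a := 50 * (n : ℝ) - 53) (b := 50 * n) (by linarith) (by linarith)
  have h6 : (50 * (n : ℝ) - (50 * n - 53)) = 53 := by ring
  rw [h6] at h5
  have h7 : F6_F (50 * n) =
      1250 * (n : ℝ) ^ 2 * Real.log n + (1250 * Real.log 50 - 1875) * (n : ℝ) ^ 2 := by
    unfold F6_F
    rw [Real.log_mul (by norm_num) hn0.ne']
    ring
  have h8 : Real.log (50 * n) < ε / 265000 * (50 * n) := by
    have h9 : Real.log (50 * (n : ℝ)) / (50 * n) < ε / 265000 := h1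
    rwa [div_lt_iff₀ (by positivity)] at h9
  have h10 : (50 * (n : ℝ)) * Real.log (50 * n) ≤ (50 * (n : ℝ)) * (ε / 265000 * (50 * n)) :=
    mul_le_mul_of_nonneg_left h8.le (by positivity)
  have h11 : 5 / 4 ≤ ε / 2 * (n : ℝ) ^ 2 := by
    rw [div_lt_iff₀ (by positivity)] at h2
    nlinarith [mul_pos hε hn0]
  nlinarith [h3, h5, h7, h10, h11]

end

end Pool.Agent.H343Z
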